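import Pool.Agent.Helper86.Poly.Goals

set_option autoImplicit false

namespace Pool.Agent.Helper32.Poly

open Pool.Agent.Helper86.Poly MeasureTheory Set

namespace PkCAR

/-- indexed Caratheodory with weights -/
lemma cara {d n : ℕ} (p : Fin n → E d) (hn : d + 1 ≤ n) (x : E d) (hx : x ∈ convexHull ℝ (range p)) :
    ∃ (S : Finset (Fin n)) (l : Fin n → ℝ), S.card = d + 1 ∧ (∀ i, 0 ≤ l i) ∧ (∀ i, i ∉ S → l i = 0) ∧
      ∑ i ∈ S, l i = 1 ∧ ∑ i ∈ S, l i • p i = x := by
  classical
  rw [convexHull_eq_union] at hx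
  simp only [mem_iUnion] at hx
  obtain ⟨t, hts, hai, hxt⟩ := hx
  have hcard : t.card ≤ d + 1 := by
    have := hai.card_le_finrank_succ
    rw [Fintype.card_coe] at this
    refine this.trans ?_
    have h2 : Module.finrank ℝ (vectorSpan ℝ (range ((↑) : t → E d))) ≤ d := by
      have := Submodule.finrank_le (vectorSpan ℝ (range ((↑) : t → E d)))
      simpa using this
    omega
  obtain ⟨w, hw0, hw1, hwx⟩ := Finset.mem_convexHull'.1 hxt
  -- choose indices
  have hsub : (t : Set (E d)) ⊆ p '' (Set.univ : Set (Fin n)) := by rwa [image_univ]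
  have hch : ∀ y : E d, y ∈ t → ∃ i : Fin n, p i = y := fun y hy => hts hy
  have : Nonempty (Fin n) := ⟨⟨0, by omega⟩⟩
  choose! g hg using hch
  have hginj : Set.InjOn g t := by
    intro y hy z hz h
    rw [← hg y hy, ← hg z hz, h]
  let S1 : Finset (Fin n) := t.image g
  have hS1 : S1.card = t.card := Finset.card_image_of_injOn hginj
  obtain ⟨S, hS1S, -, hScard⟩ := Finset.exists_subsuperset_card_eq (n := d + 1) (Finset.subset_univ S1)
    (by rw [hS1]; exact hcard) (by simpa using hn)
  refine ⟨S, fun i => if i ∈ S1 then w (p i) else 0, hScard, ?_, ?_, ?_, ?_⟩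
  · intro i
    by_cases h : i ∈ S1
    · obtain ⟨y, hy, rfl⟩ := Finset.mem_image.1 h
      simp only [h, if_true]
      rw [hg y hy]
      exact hw0 y hy
    · simp [h]
  · intro i hi
    have : i ∉ S1 := fun h => hi (hS1S h)
    simp [this]
  · rw [← Finset.sum_subset hS1S (by intro i _ hi; simp [hi])]
    rw [Finset.sum_image hginj, ← hw1]
    refine Finset.sum_congr rfl fun y hy => ?_
    have : g y ∈ S1 := Finset.mem_image_of_mem g hy
    simp only [this, if_true, hg y hy]
  · rw [← Finset.sum_subset hS1S (by intro i _ hi; simp [hi])]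
    rw [Finset.sum_image hginj, ← hwx]
    refine Finset.sum_congr rfl fun y hy => ?_
    have : g y ∈ S1 := Finset.mem_image_of_mem g hy
    simp only [this, if_true, hg y hy]

lemma mem_hull {d n : ℕ} (p : Fin n → E d) (S : Finset (Fin n)) (l : Fin n → ℝ) (h0 : ∀ i ∈ S, 0 ≤ l i)
    (h1 : ∑ i ∈ S, l i = 1) : ∑ i ∈ S, l i • p i ∈ convexHull ℝ (p '' (S : Set (Fin n))) := by
  have := Finset.centerMass_mem_convexHull (R := ℝ) S (w := l) (z := p) (s := p '' (S : Set (Fin n))) h0
    (by rw [h1]; norm_num) (fun i hi => ⟨i, hi, rfl⟩)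
  rwa [Finset.centerMass_eq_of_sum_1 _ _ h1] at this

/-- the exchange step -/
lemma exch {d n : ℕ} (p : Fin n → E d) (x : E d) (S : Finset (Fin n)) (l : Fin n → ℝ)
    (hcard : S.card = d + 1) (h0 : ∀ i, 0 ≤ l i) (hz : ∀ i, i ∉ S → l i = 0)
    (h1 : ∑ i ∈ S, l i = 1) (hx : ∑ i ∈ S, l i • p i = x) (q : Fin n) (hq : q ∉ S) :
    ∃ i ∈ S, x ∈ convexHull ℝ (p '' ((insert q (S.erase i) : Finset (Fin n)) : Set (Fin n))) := by
  classical
  -- an affine relation on insert q S
  have hdep : ∃ f : Fin n → ℝ, ∑ i ∈ insert q S, f i = 0 ∧ ∑ i ∈ insert q S, f i • p i = 0 ∧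
      ∃ i ∈ insert q S, f i ≠ 0 := by
    by_contra hcon
    have hli : LinearIndepOn ℝ (fun i : Fin n => ((1 : ℝ), p i)) ((insert q S : Finset (Fin n)) : Set (Fin n)) := by
      by_contra hnl
      rw [not_linearIndepOn_finset_iff] at hnl
      obtain ⟨f, hf, hne⟩ := hnl
      apply hcon
      refine ⟨f, ?_, ?_, hne⟩
      · have := congrArg Prod.fst hf
        rw [Prod.fst_sum] at this
        simpa using this
      · have := congrArg Prod.snd hf
        rw [Prod.snd_sum] at this
        simpa using this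
    have hcl := hli.fintype_card_le_finrank
    rw [Module.finrank_prod] at hcl
    simp only [Finset.coe_sort_coe, Fintype.card_coe, Module.finrank_self, finrank_euclideanSpace,
      Fintype.card_fin] at hcl
    rw [Finset.card_insert_of_notMem hq, hcard] at hcl
    omega
  -- sign
  have hdep' : ∃ f : Fin n → ℝ, 0 ≤ f q ∧ ∑ i ∈ insert q S, f i = 0 ∧ ∑ i ∈ insert q S, f i • p i = 0 ∧
      ∃ i ∈ insert q S, f i ≠ 0 := by
    obtain ⟨f, hf1, hf2, i, hi, hne⟩ := hdep
    rcases le_total 0 (f q) with h | h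
    · exact ⟨f, h, hf1, hf2, i, hi, hne⟩
    · refine ⟨fun j => - f j, by simpa using h, ?_, ?_, i, hi, by simpa using hne⟩
      · rw [Finset.sum_neg_distrib, hf1, neg_zero]
      · simp only [neg_smul]
        rw [Finset.sum_neg_distrib, hf2, neg_zero]
  obtain ⟨f, hfq, hf1, hf2, j, hj, hjne⟩ := hdep'
  have hneg : (S.filter fun i => f i < 0).Nonempty := by
    by_contra hem
    rw [Finset.not_nonempty_iff_eq_empty, Finset.filter_eq_empty_iff] at hem
    have hall : ∀ i ∈ insert q S, 0 ≤ f i := by
      intro i hi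
      rcases Finset.mem_insert.1 hi with rfl | hi
      · exact hfq
      · exact not_lt.1 (hem hi)
    have := (Finset.sum_eq_zero_iff_of_nonneg hall).1 hf1 j hj
    exact hjne this
  obtain ⟨i0, hi0, hmin⟩ := Finset.exists_min_image _ (fun i => l i / (- f i)) hneg
  rw [Finset.mem_filter] at hi0
  have hfi0 : 0 < - f i0 := by linarith [hi0.2]
  set t : ℝ := l i0 / (- f i0) with ht
  have ht0 : 0 ≤ t := div_nonneg (h0 i0) hfi0.le
  refine ⟨i0, hi0.1, ?_⟩
  have hi0q : i0 ≠ q := fun h => hq (h ▸ hi0.1)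
  have hset : insert q (S.erase i0) = (insert q S).erase i0 := by
    rw [Finset.erase_insert_of_ne (Ne.symm hi0q)]
  have hw0 : l i0 + t * f i0 = 0 := by
    rw [ht]
    have : f i0 ≠ 0 := by linarith [hi0.2]
    field_simp
    ring
  have hi0m : i0 ∈ insert q S := Finset.mem_insert_of_mem hi0.1
  have hlq : l q = 0 := hz q hq
  have hs1 : ∑ i ∈ insert q (S.erase i0), (l i + t * f i) = 1 := by
    rw [hset]
    have := Finset.sum_erase (insert q S) (f := fun i => l i + t * f i) (a := i0) hw0
    rw [this, Finset.sum_add_distrib, ← Finset.mul_sum, hf1, mul_zero, add_zero,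
      Finset.sum_insert hq, hlq, zero_add, h1]
  have hs2 : ∑ i ∈ insert q (S.erase i0), (l i + t * f i) • p i = x := by
    rw [hset]
    have := Finset.sum_erase (insert q S) (f := fun i => (l i + t * f i) • p i) (a := i0)
      (by show (l i0 + t * f i0) • p i0 = 0; rw [hw0, zero_smul])
    rw [this]
    simp only [add_smul, mul_smul]
    rw [Finset.sum_add_distrib, ← Finset.smul_sum, hf2, smul_zero, add_zero,
      Finset.sum_insert hq, hlq, zero_smul, zero_add, hx]
  rw [← hs2]
  apply mem_hull _ _ _ _ hs1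
  intro i hi
  rcases lt_or_ge (f i) 0 with hlt | hge
  · have hiS : i ∈ S := by
      rcases Finset.mem_insert.1 hi with rfl | hi
      · exact absurd hlt (not_lt.2 hfq)
      · exact Finset.mem_of_mem_erase hi
    have := hmin i (Finset.mem_filter.2 ⟨hiS, hlt⟩)
    have h3 : 0 < - f i := by linarith
    rw [le_div_iff₀ h3] at this
    linarith
  · have := mul_nonneg ht0 hge
    linarith [h0 i]

/-- many simplices contain the point -/
lemma many {d k : ℕ} (p : Fin (d + k) → E d) (hk : 1 ≤ k) (x : E d) (hx : x ∈ convexHull ℝ (range p)) :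
    ∃ F : Finset (Finset (Fin (d + k))), k ≤ F.card ∧
      F ⊆ Finset.powersetCard (d + 1) (Finset.univ : Finset (Fin (d + k))) ∧
      ∀ S ∈ F, x ∈ convexHull ℝ (p '' (S : Set (Fin (d + k)))) := by
  classical
  obtain ⟨S, l, hc, h0, hz, h1, hxx⟩ := cara p (by omega) x hx
  have hex : ∀ q : Fin (d + k), q ∈ Sᶜ → ∃ i ∈ S,
      x ∈ convexHull ℝ (p '' ((insert q (S.erase i) : Finset (Fin (d + k))) : Set (Fin (d + k)))) := by
    intro q hq
    exact exch p x S l hc h0 hz h1 hxx q (Finset.mem_compl.1 hq)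
  choose! g hgS hgx using hex
  have hinj : Set.InjOn (fun q => insert q (S.erase (g q))) ((Sᶜ : Finset (Fin (d + k))) : Set (Fin (d + k))) := by
    intro q hq q' hq' h
    have hq1 : q ∉ S := Finset.mem_compl.1 hq
    have : q ∈ insert q' (S.erase (g q')) := by
      have h2 : q ∈ insert q (S.erase (g q)) := Finset.mem_insert_self _ _
      have h3 : insert q (S.erase (g q)) = insert q' (S.erase (g q')) := h
      rwa [h3] at h2
    rcases Finset.mem_insert.1 this with h4 | h4
    · exact h4
    · exact absurd (Finset.mem_of_mem_erase h4) hq1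
  have hnm : S ∉ (Sᶜ).image (fun q => insert q (S.erase (g q))) := by
    intro h
    obtain ⟨q, hq, hqS⟩ := Finset.mem_image.1 h
    have : q ∈ S := by
      have h3 : insert q (S.erase (g q)) = S := hqS
      rw [← h3]
      exact Finset.mem_insert_self _ _
    exact Finset.mem_compl.1 hq this
  refine ⟨insert S ((Sᶜ).image (fun q => insert q (S.erase (g q)))), ?_, ?_, ?_⟩
  · rw [Finset.card_insert_of_notMem hnm, Finset.card_image_of_injOn hinj, Finset.card_compl, hc,
      Fintype.card_fin]
    omega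
  · intro T hT
    rw [Finset.mem_powersetCard]
    refine ⟨Finset.subset_univ _, ?_⟩
    rcases Finset.mem_insert.1 hT with rfl | hT
    · exact hc
    · obtain ⟨q, hq, rfl⟩ := Finset.mem_image.1 hT
      have hq1 : q ∉ S := Finset.mem_compl.1 hq
      rw [Finset.card_insert_of_notMem (fun h => hq1 (Finset.mem_of_mem_erase h)),
        Finset.card_erase_of_mem (hgS q hq), hc]
      omega
  · intro T hT
    rcases Finset.mem_insert.1 hT with rfl | hT
    · rw [← hxx]
      exact mem_hull p T l (fun i _ => h0 i) h1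
    · obtain ⟨q, hq, rfl⟩ := Finset.mem_image.1 hT
      exact hgx q hq

theorem thm : G_CAR := by
  classical
  intro d k p hk
  have hmeas : ∀ s : Set (E d), s.Finite → MeasurableSet (convexHull ℝ s) := fun s hs =>
    (hs.isCompact_convexHull (𝕜 := ℝ)).measurableSet
  have hM : MeasurableSet (convexHull ℝ (range p)) := hmeas _ (finite_range p)
  have hMS : ∀ S : Finset (Fin (d + k)), MeasurableSet (convexHull ℝ (p '' (S : Set (Fin (d + k))))) :=
    fun S => hmeas _ (S.finite_toSet.image p)
  have e1 : (k : ENNReal) * volume (convexHull ℝ (range p)) =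
      ∫⁻ x, (convexHull ℝ (range p)).indicator (fun _ => (k : ENNReal)) x := by
    rw [lintegral_indicator_const hM]
  have e2 : ∑ S ∈ Finset.powersetCard (d + 1) (Finset.univ : Finset (Fin (d + k))),
      volume (convexHull ℝ (p '' (S : Set (Fin (d + k))))) =
      ∫⁻ x, ∑ S ∈ Finset.powersetCard (d + 1) (Finset.univ : Finset (Fin (d + k))),
        (convexHull ℝ (p '' (S : Set (Fin (d + k))))).indicator (fun _ => (1 : ENNReal)) x := by
    rw [lintegral_finsetSum]
    · refine Finset.sum_congr rfl fun S _ => ?_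
      rw [lintegral_indicator_const (hMS S), one_mul]
    · intro S _
      exact measurable_const.indicator (hMS S)
  rw [e1, e2]
  apply lintegral_mono
  intro x
  by_cases hx : x ∈ convexHull ℝ (range p)
  · obtain ⟨F, hF1, hF2, hF3⟩ := many p hk x hx
    show (convexHull ℝ (range p)).indicator (fun _ => (k : ENNReal)) x ≤
      ∑ S ∈ Finset.powersetCard (d + 1) (Finset.univ : Finset (Fin (d + k))),
        (convexHull ℝ (p '' (S : Set (Fin (d + k))))).indicator (fun _ => (1 : ENNReal)) x
    rw [indicator_of_mem hx]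
    calc (k : ENNReal) ≤ (F.card : ENNReal) := by exact_mod_cast hF1
      _ = ∑ S ∈ F, (1 : ENNReal) := by simp
      _ = ∑ S ∈ F, (convexHull ℝ (p '' (S : Set (Fin (d + k))))).indicator (fun _ => (1 : ENNReal)) x := by
          refine Finset.sum_congr rfl fun S hS => ?_
          rw [indicator_of_mem (hF3 S hS)]
      _ ≤ _ := Finset.sum_le_sum_of_subset hF2
  · show (convexHull ℝ (range p)).indicator (fun _ => (k : ENNReal)) x ≤ _
    rw [indicator_of_notMem hx]
    exact bot_le

end PkCAR

end Pool.Agent.Helper32.Poly
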